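import Pool.Agent.H312.NearOne.D
import Pool.Agent.H312.NearOne.Hh

/-!
Asymptotics, as `α → 1⁻`, of the extremal problem for the symbol `(1-|ξ|)^α` on `[-1,1]`:
`I(α) = 1 + ((π/2 + o(1)) (1-α))^(1/(1-α))`.
-/

open Set Filter Topology MeasureTheory

namespace Pool.Agent.Results.MP_1b8a6f_an.NearOne

open Pool.Agent.H312.NearOne

/-- The set of the total variation norms `‖μ‖` of all complex Borel measures `μ` of bounded
variation on the line whose Fourier transform `∫ exp(-ixξ) dμ(x)` equals `(1-|ξ|)^α` for all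
`ξ ∈ [-1,1]`. -/
def norms (α : ℝ) : Set ℝ :=
  {V | ∃ μ : ComplexMeasure ℝ, μ.variation Set.univ ≠ ⊤ ∧
    (∀ ξ ∈ Set.Icc (-1:ℝ) 1,
      ∫ᵛ x, Complex.exp (-(Complex.I * (x:ℂ) * (ξ:ℂ))) ∂[ContinuousLinearMap.mul ℝ ℂ; μ]
        = (((1 - |ξ|) ^ α : ℝ) : ℂ)) ∧
    V = (μ.variation Set.univ).toReal}

/-- `I(α)`, the infimum of the norms. -/
noncomputable def I (α : ℝ) : ℝ := sInf (norms α)

lemma bdd (α : ℝ) : BddBelow (norms α) := by
  refine ⟨0, ?_⟩
  rintro V ⟨μ, _, _, rfl⟩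
  exact ENNReal.toReal_nonneg

lemma dens {α : ℝ} {V : ℝ} (hV : V ∈ norms α) : ∃ (ν : Measure ℝ) (f : ℝ → ℂ),
    IsFiniteMeasure ν ∧ Integrable f ν ∧
    (∀ ξ ∈ Icc (-1:ℝ) 1, ∫ x, Complex.exp (-(Complex.I * x * ξ)) * f x ∂ν
      = (((1 - |ξ|) ^ α : ℝ) : ℂ)) ∧ V = ∫ x, ‖f x‖ ∂ν := by
  obtain ⟨μ, hμ, hrep, rfl⟩ := hV
  obtain ⟨f, hf, hμf⟩ := B595.exists_density μ hμ
  have hfin : IsFiniteMeasure μ.variation := ⟨lt_top_iff_ne_top.2 hμ⟩
  have hvar : μ.variation = μ.variation.withDensity (fun x => ‖f x‖ₑ) := by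
    conv_lhs => rw [hμf]
    exact Measure.variation_withDensityᵥ hf
  have hnorm : (μ.variation Set.univ).toReal = ∫ x, ‖f x‖ ∂μ.variation := by
    conv_lhs => rw [hvar]
    rw [withDensity_apply _ MeasurableSet.univ, Measure.restrict_univ,
      integral_norm_eq_lintegral_enorm hf.aestronglyMeasurable]
  refine ⟨μ.variation, f, hfin, hf, ?_, hnorm⟩
  intro ξ hξ
  rw [← hrep ξ hξ]
  have hint : Integrable (fun x : ℝ => Complex.exp (-(Complex.I * (x:ℂ) * (ξ:ℂ))))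
      (μ.variation.withDensity (fun x => ‖f x‖ₑ)) := by
    rw [← hvar]
    exact Integrable.of_bound (Continuous.aestronglyMeasurable (by fun_prop)) 1
      (Filter.Eventually.of_forall fun x =>
        Pool.Agent.Results.MP_1b8a6f_an.ExactNorm.exp_bdd x ξ)
  rw [← B595.integral_withDensityV hf hint, ← hμf]

lemma lower {α : ℝ} (hα : 0 < α) (hα1 : α ≤ 1) {h L : ℝ} (hh : 0 < h) (hL : 1 ≤ L)
    (hLh : L * h ≤ 1) {V : ℝ} (hV : V ∈ norms α) :
    1 + (1/200) * (h ^ α * (1 - L ^ (α - 1)) - h * (40 + 2 / Real.pi * Real.log L)) ≤ V := by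
  obtain ⟨ν, f, hfin, hf, hrep, rfl⟩ := dens hV
  exact V_lower hf hα hα1 hrep hh hL hLh

lemma one_le {α : ℝ} {V : ℝ} (hV : V ∈ norms α) : 1 ≤ V := by
  obtain ⟨ν, f, hfin, hf, hrep, rfl⟩ := dens hV
  have h0 := hrep 0 ⟨by norm_num, by norm_num⟩
  simp at h0
  calc (1:ℝ) = ‖∫ x, f x ∂ν‖ := by rw [h0]; simp
    _ ≤ ∫ x, ‖f x‖ ∂ν := norm_integral_le_integral_norm _

lemma mem {α : ℝ} (hα : 1/2 ≤ α) (hα1 : α < 1) : ∑' n, |co α n| ∈ norms α := norm_mem hα hα1

lemma tend_eps : Tendsto (fun α : ℝ => 1 - α) (𝓝[<] 1) (𝓝 0) := by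
  have : Tendsto (fun α : ℝ => 1 - α) (𝓝 1) (𝓝 (1 - 1)) := by
    exact (continuous_const.sub continuous_id).tendsto 1
  rw [sub_self] at this
  exact this.mono_left nhdsWithin_le_nhds

/-- the lower bound, for `m < π/2` -/
lemma low {m : ℝ} (hm0 : 0 < m) (hm : m < Real.pi / 2) :
    ∀ᶠ α in 𝓝[<] (1:ℝ), (1/200 : ℝ) ^ (1 - α) * m ≤ (I α - 1) ^ (1 - α) / (1 - α) := by
  have hpi := Real.pi_pos
  have hgap : 0 < 1 / m - 2 / Real.pi := by
    have : 2 / Real.pi < 1 / m := by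
      rw [div_lt_div_iff₀ hpi hm0]; linarith
    linarith
  set ℓ : ℝ := 42 / (1 / m - 2 / Real.pi) with hℓ
  have hℓ0 : 0 < ℓ := by positivity
  have hℓe : (1 / m - 2 / Real.pi) * ℓ = 42 := by
    rw [hℓ, mul_div_cancel₀ _ hgap.ne']
  set L : ℝ := Real.exp ℓ with hLdef
  have hL : 1 ≤ L := Real.one_le_exp hℓ0.le
  have hlog : Real.log L = ℓ := Real.log_exp ℓ
  have hL0 : 0 < L := Real.exp_pos ℓ
  have e1 : ∀ᶠ α in 𝓝[<] (1:ℝ), α < 1 := eventually_mem_nhdsWithin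
  have e2 : ∀ᶠ α in 𝓝[<] (1:ℝ), 1 - α < 1/2 := (tend_eps.eventually_lt_const (by norm_num))
  have e3 : ∀ᶠ α in 𝓝[<] (1:ℝ), (1 - α) * m < 1 / L := by
    have : Tendsto (fun α : ℝ => (1 - α) * m) (𝓝[<] 1) (𝓝 (0 * m)) := tend_eps.mul_const m
    rw [zero_mul] at this
    exact this.eventually_lt_const (by positivity)
  have e4 : ∀ᶠ α in 𝓝[<] (1:ℝ), (1 - α) * (ℓ^2 / m) < 1 := by
    have : Tendsto (fun α : ℝ => (1 - α) * (ℓ^2 / m)) (𝓝[<] 1) (𝓝 (0 * (ℓ^2 / m))) :=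
      tend_eps.mul_const _
    rw [zero_mul] at this
    exact this.eventually_lt_const (by norm_num)
  filter_upwards [e1, e2, e3, e4] with α h1 h2 h3 h4
  set ε : ℝ := 1 - α with hε
  have hε0 : 0 < ε := by linarith
  have hα0 : 0 < α := by linarith
  set h : ℝ := (ε * m) ^ (1 / ε) with hh
  have hem : 0 < ε * m := by positivity
  have hh0 : 0 < h := Real.rpow_pos_of_pos hem _
  have hL1 : 1 / L ≤ 1 := by rw [div_le_one hL0]; exact hL
  have hhle : h ≤ ε * m := by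
    have := Real.rpow_le_rpow_of_exponent_ge hem (by linarith)
      (show (1:ℝ) ≤ 1 / ε by rw [le_div_iff₀ hε0]; linarith)
    rwa [Real.rpow_one] at this
  have hLh : L * h ≤ 1 := by
    have : h ≤ 1 / L := by linarith
    calc L * h ≤ L * (1 / L) := by gcongr
      _ = 1 := by field_simp
  have hhε : h ^ ε = ε * m := by
    rw [hh, ← Real.rpow_mul hem.le, one_div_mul_cancel hε0.ne', Real.rpow_one]
  have hhα : h ^ α = h / (ε * m) := by
    have : α = 1 - ε := by linarith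
    rw [this, Real.rpow_sub hh0, Real.rpow_one, hhε]
  -- `L^(α-1) ≤ 1 - ε ℓ (1 - ε ℓ)`
  have hLp : L ^ (α - 1) = Real.exp (-(ε * ℓ)) := by
    rw [hLdef, ← Real.exp_mul]
    congr 1
    rw [hε]; ring
  have hx1 : 1 - L ^ (α - 1) ≥ ε * ℓ * (1 - ε * ℓ) := by
    rw [hLp]
    have a1 := Real.add_one_le_exp (ε * ℓ)
    have a2 := Real.add_one_le_exp (-(ε * ℓ))
    have a3 : Real.exp (ε * ℓ) * Real.exp (-(ε * ℓ)) = 1 := by
      rw [← Real.exp_add]; simp
    have a4 := Real.exp_pos (-(ε * ℓ))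
    have a5 : 0 < ε * ℓ := by positivity
    have a6 : (ε * ℓ + 1) * Real.exp (-(ε * ℓ)) ≤ 1 := by
      calc (ε * ℓ + 1) * Real.exp (-(ε * ℓ)) ≤ Real.exp (ε * ℓ) * Real.exp (-(ε * ℓ)) := by gcongr
        _ = 1 := a3
    nlinarith
  have hmain : ∀ V ∈ norms α, 1 + h / 200 ≤ V := by
    intro V hV
    refine le_trans ?_ (lower hα0 h1.le hh0 hL hLh hV)
    rw [hhα, hlog]
    have b1 : h / (ε * m) * (ε * ℓ * (1 - ε * ℓ)) ≤ h / (ε * m) * (1 - L ^ (α - 1)) := by
      gcongr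
    have b2 : h / (ε * m) * (ε * ℓ * (1 - ε * ℓ)) = h * (1 / m * ℓ - ε * (ℓ^2 / m)) := by
      field_simp
    have b3 : 1 ≤ (1 / m * ℓ - ε * (ℓ^2 / m)) - (40 + 2 / Real.pi * ℓ) := by
      nlinarith
    have b4 : h * 1 ≤ h * ((1 / m * ℓ - ε * (ℓ^2 / m)) - (40 + 2 / Real.pi * ℓ)) := by gcongr
    nlinarith
  have hI : 1 + h / 200 ≤ I α := le_csInf ⟨_, mem (by linarith) h1⟩ hmain
  rw [le_div_iff₀ hε0]
  have c1 : ((1/200 : ℝ) * h) ^ ε ≤ (I α - 1) ^ ε := by
    apply Real.rpow_le_rpow (by positivity) _ hε0.le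
    linarith
  rw [Real.mul_rpow (by norm_num) hh0.le, hhε] at c1
  linarith

/-- the upper bound, for `q > π/2` -/
lemma upp {q : ℝ} (hq : Real.pi / 2 < q) :
    ∀ᶠ α in 𝓝[<] (1:ℝ), (I α - 1) ^ (1 - α) / (1 - α) ≤
      (40 : ℝ) ^ (1 - α) * (q * ((1 - α) * q) ^ (-2 * (1 - α))) := by
  have hpi := Real.pi_pos
  have hq0 : 0 < q := by linarith
  have e1 : ∀ᶠ α in 𝓝[<] (1:ℝ), α < 1 := eventually_mem_nhdsWithin
  have e2 : ∀ᶠ α in 𝓝[<] (1:ℝ), 1 - α < 1/2 := (tend_eps.eventually_lt_const (by norm_num))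
  have e3 : ∀ᶠ α in 𝓝[<] (1:ℝ),
      (1 - α) + (2 - α) * (Real.pi / 2 + (1 - α) / (2 * α)) / q < 1 := by
    have hc : ContinuousAt (fun α : ℝ =>
        (1 - α) + (2 - α) * (Real.pi / 2 + (1 - α) / (2 * α)) / q) 1 := by
      apply ContinuousAt.add (by fun_prop)
      apply ContinuousAt.div_const
      apply ContinuousAt.mul (by fun_prop)
      apply ContinuousAt.add (by fun_prop)
      apply ContinuousAt.div (by fun_prop) (by fun_prop)
      norm_num
    have ht := hc.tendsto.mono_left (nhdsWithin_le_nhds (s := Iio 1))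
    refine ht.eventually_lt_const ?_
    have : (1 - 1 : ℝ) + (2 - 1) * (Real.pi / 2 + (1 - 1) / (2 * 1)) / q = Real.pi / 2 / q := by
      norm_num
    rw [this, div_lt_one hq0]
    exact hq
  have e4 : ∀ᶠ α in 𝓝[<] (1:ℝ), (1 - α) * ∑' n : ℕ, 1 / (n:ℝ) ^ (2 - α) < 2 := by
    have ht : Tendsto (fun α : ℝ => 2 - α) (𝓝[<] 1) (𝓝[>] 1) := by
      apply tendsto_nhdsWithin_of_tendsto_nhds_of_eventually_within
      · have : Tendsto (fun α : ℝ => 2 - α) (𝓝 1) (𝓝 (2 - 1)) :=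
          (continuous_const.sub continuous_id).tendsto 1
        have h21 : (2:ℝ) - 1 = 1 := by norm_num
        rw [h21] at this
        exact this.mono_left nhdsWithin_le_nhds
      · filter_upwards [e1] with α h1
        simp only [mem_Ioi]
        linarith
    have h := tendsto_sub_mul_tsum_nat_rpow.comp ht
    have h' := h.eventually_lt_const (show (1:ℝ) < 2 by norm_num)
    filter_upwards [h'] with α h1
    simp only [Function.comp_def] at h1
    have : (2 - α - 1) = 1 - α := by ring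
    rwa [this] at h1
  filter_upwards [e1, e2, e3, e4] with α h1 h2 h3 h4
  have hα : 1/2 ≤ α := by linarith
  have hI : I α ≤ 1 + 4 * Mn α q * ∑' n : ℕ, 1 / (n:ℝ) ^ (2 - α) :=
    (csInf_le (bdd α) (mem hα h1)).trans (sum_abs hα h1 hq0 h3.le)
  set ε : ℝ := 1 - α with hε
  have hε0 : 0 < ε := by linarith
  have hI2 : I α - 1 ≤ 40 * (ε * q) ^ ((2 * α - 1) / ε) := by
    have hMn : Mn α q = 5 * ε * (ε * q) ^ ((2 * α - 1) / ε) := rfl
    rw [hMn] at hI
    have hp : 0 ≤ (ε * q) ^ ((2 * α - 1) / ε) := by positivity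
    calc I α - 1 ≤ 4 * (5 * ε * (ε * q) ^ ((2 * α - 1) / ε)) * ∑' n : ℕ, 1 / (n:ℝ) ^ (2 - α) := by
          linarith
      _ = 20 * (ε * q) ^ ((2 * α - 1) / ε) * (ε * ∑' n : ℕ, 1 / (n:ℝ) ^ (2 - α)) := by ring
      _ ≤ 20 * (ε * q) ^ ((2 * α - 1) / ε) * 2 := by gcongr
      _ = _ := by ring
  have hI1 : 0 ≤ I α - 1 := by
    have : (1:ℝ) ≤ I α := le_csInf ⟨_, mem hα h1⟩ (fun V hV => one_le hV)
    linarith
  rw [div_le_iff₀ hε0]
  calc (I α - 1) ^ ε ≤ (40 * (ε * q) ^ ((2 * α - 1) / ε)) ^ ε :=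
        Real.rpow_le_rpow hI1 hI2 hε0.le
    _ = (40:ℝ) ^ ε * (ε * q) ^ (2 * α - 1) := by
        rw [Real.mul_rpow (by norm_num) (by positivity), ← Real.rpow_mul (by positivity)]
        congr 2
        field_simp
    _ = (40:ℝ) ^ ε * (q * (ε * q) ^ (-2 * ε)) * ε := by
        have : (ε * q) ^ (2 * α - 1) = (ε * q) * (ε * q) ^ (-2 * ε) := by
          have e : 2 * α - 1 = 1 + (-2 * ε) := by rw [hε]; ring
          rw [e, Real.rpow_add (by positivity), Real.rpow_one]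
        rw [this]; ring

/-- `I(α) = 1 + ((π/2 + o(1)) (1-α))^(1/(1-α))` as `α → 1⁻`. -/
theorem result :
    Tendsto (fun α : ℝ => (I α - 1) ^ (1 - α) / (1 - α)) (𝓝[<] 1) (𝓝 (Real.pi / 2)) := by
  have hpi3 := Real.pi_gt_three
  rw [tendsto_order]
  constructor
  · intro a ha
    set m : ℝ := (max a 1 + Real.pi / 2) / 2 with hm
    have hmax : max a 1 < Real.pi / 2 := max_lt ha (by linarith)
    have hm0 : 0 < m := by
      have := le_max_right a 1
      rw [hm]; linarith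
    have hm1 : m < Real.pi / 2 := by rw [hm]; linarith
    have hma : a < m := by
      have := le_max_left a 1
      rw [hm]; linarith
    have ht : Tendsto (fun α : ℝ => (1/200 : ℝ) ^ (1 - α) * m) (𝓝[<] 1) (𝓝 ((1/200:ℝ)^(0:ℝ) * m)) := by
      apply Tendsto.mul_const
      exact ((Real.continuous_const_rpow (by norm_num)).tendsto 0).comp tend_eps
    rw [Real.rpow_zero, one_mul] at ht
    filter_upwards [ht.eventually_const_lt hma, low hm0 hm1] with α h1 h2
    linarith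
  · intro b hb
    set q : ℝ := (b + Real.pi / 2) / 2 with hq
    have hq1 : Real.pi / 2 < q := by rw [hq]; linarith
    have hq2 : q < b := by rw [hq]; linarith
    have hq0 : 0 < q := by linarith
    have ht : Tendsto (fun α : ℝ => (40 : ℝ) ^ (1 - α) * (q * ((1 - α) * q) ^ (-2 * (1 - α))))
        (𝓝[<] 1) (𝓝 ((40:ℝ)^(0:ℝ) * (q * 1))) := by
      apply Tendsto.mul
      · exact ((Real.continuous_const_rpow (by norm_num)).tendsto 0).comp tend_eps
      · apply Tendsto.const_mul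
        have h1 : Tendsto (fun α : ℝ => Real.exp (-(2 / q) * (((1 - α) * q) *
            Real.log ((1 - α) * q)))) (𝓝[<] 1) (𝓝 1) := by
          have h2 : Tendsto (fun α : ℝ => (1 - α) * q) (𝓝[<] 1) (𝓝 0) := by
            have := tend_eps.mul_const q
            rwa [zero_mul] at this
          have h3 := (Real.continuous_mul_log.tendsto 0).comp h2
          have h4 := (Real.continuous_exp.tendsto _).comp (h3.const_mul (-(2 / q)))
          simpa [Function.comp_def] using h4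
        refine h1.congr' ?_
        filter_upwards [eventually_mem_nhdsWithin] with α hα
        have hα' : α < 1 := hα
        have : 0 < (1 - α) * q := by
          apply mul_pos _ hq0; linarith
        rw [Real.rpow_def_of_pos this]
        congr 1
        field_simp
    rw [Real.rpow_zero, one_mul, mul_one] at ht
    filter_upwards [ht.eventually_lt_const hq2, upp hq1] with α h1 h2
    linarith

end Pool.Agent.Results.MP_1b8a6f_an.NearOne
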